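import Pool.Agent.Q269.DX.St

/-!
# Project DX of helper269, job DX-CEL: the exceptional tuples in a cell
-/

set_option autoImplicit false
set_option linter.all false

open scoped Classical
open Finset Polynomial Filter Topology

namespace Pool.Agent.Q192.DX

open Pool.Agent.Q269.DX.Bs (prs ext ze)
open Pool.Agent.Q269.DX.JQ Pool.Agent.Q269.DX.LD
open Pool.Agent.H341R2.Sharp (lam)
open Pool.Agent.Y164.PS (L L_comm sum_update)
open Pool.Agent.Y164.HG (ok)
open Pool.Agent.Q269.DX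

section okge

variable {k : Type} [Field k] [Fintype k] [DecidableEq k]
variable {ι τ : Type} [Fintype ι] [LinearOrder ι] [Fintype τ]
variable {Q : τ → k[X]} {𝒞 : ι → Finset k[X]} {lg : Finset ι} {η : ℝ}

theorem ok_ge (heta : ∀ j ∈ lg, ((Fintype.card ι : ℝ) + Fintype.card τ) ≤ η * (𝒞 j).card)
    (hsm : ∀ T ∈ Fintype.piFinset 𝒞, ∀ x y : ι ⊕ τ, (∀ j ∈ lg, x ≠ Sum.inl j) →
    (∀ j ∈ lg, y ≠ Sum.inl j) → Sum.elim T Q x = Sum.elim T Q y → x = y) :
    ((Fintype.piFinset 𝒞).card : ℝ) * (1 - lg.card * η) ≤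
    ∑ T ∈ Fintype.piFinset 𝒞, (if ok Q T then (1 : ℝ) else 0) := by
  have h1 : ∀ T ∈ Fintype.piFinset 𝒞, (1 : ℝ) - ∑ j ∈ lg,
      (if ∃ x, x ≠ Sum.inl j ∧ Sum.elim T Q x = T j then (1 : ℝ) else 0) ≤
      (if ok Q T then (1 : ℝ) else 0) := by
    intro T hT
    split_ifs with h
    · have : 0 ≤ ∑ j ∈ lg, (if ∃ x, x ≠ Sum.inl j ∧ Sum.elim T Q x = T j then (1 : ℝ) else 0) :=
        sum_nonneg fun j _ => by split_ifs <;> norm_num
      linarith
    · have h2 : ∃ j ∈ lg, ∃ x, x ≠ Sum.inl j ∧ Sum.elim T Q x = T j := by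
        by_contra hno
        push Not at hno
        apply h
        intro x y hxy
        by_cases hx : ∃ j ∈ lg, x = Sum.inl j
        · obtain ⟨j, hj, rfl⟩ := hx
          by_contra hne
          exact hno j hj y (Ne.symm hne) hxy.symm
        · by_cases hy : ∃ j ∈ lg, y = Sum.inl j
          · obtain ⟨j, hj, rfl⟩ := hy
            by_contra hne
            exact hno j hj x hne hxy
          · push Not at hx hy
            exact hsm T hT x y hx hy hxy
      obtain ⟨j, hj, hx⟩ := h2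
      have h3 : (1 : ℝ) ≤ ∑ j ∈ lg,
          (if ∃ x, x ≠ Sum.inl j ∧ Sum.elim T Q x = T j then (1 : ℝ) else 0) := by
        refine le_trans (le_of_eq (if_pos hx).symm) (single_le_sum (f := fun j =>
          if ∃ x, x ≠ Sum.inl j ∧ Sum.elim T Q x = T j then (1 : ℝ) else 0) ?_ hj)
        intro i _
        show 0 ≤ (if _ then (1 : ℝ) else 0)
        split_ifs <;> norm_num
      linarith
  have h2 : ∀ j ∈ lg, ∑ T ∈ Fintype.piFinset 𝒞,
      (if ∃ x, x ≠ Sum.inl j ∧ Sum.elim T Q x = T j then (1 : ℝ) else 0) ≤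
      η * (Fintype.piFinset 𝒞).card := by
    intro j hj
    rcases (𝒞 j).eq_empty_or_nonempty with he | hne
    · have : Fintype.piFinset 𝒞 = ∅ := by
        rw [Fintype.piFinset_eq_empty]
        exact ⟨j, he⟩
      rw [this]
      simp
    · have hpos : (0 : ℝ) < (𝒞 j).card := by exact_mod_cast card_pos.2 hne
      have h3 := sum_update 𝒞 j (fun T =>
        if ∃ x, x ≠ Sum.inl j ∧ Sum.elim T Q x = T j then (1 : ℝ) else 0)
      have h4 : ∀ T ∈ Fintype.piFinset 𝒞, ∑ p ∈ 𝒞 j,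
          (if ∃ x, x ≠ Sum.inl j ∧ Sum.elim (Function.update T j p) Q x =
            Function.update T j p j then (1 : ℝ) else 0) ≤ η * (𝒞 j).card := by
        intro T hT
        refine le_trans ?_ (heta j hj)
        rw [← sum_filter, sum_const, nsmul_one]
        have h5 : ((𝒞 j).filter fun p => ∃ x, x ≠ Sum.inl j ∧
            Sum.elim (Function.update T j p) Q x = Function.update T j p j) ⊆
            (univ : Finset (ι ⊕ τ)).image (Sum.elim T Q) := by
          intro p hp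
          obtain ⟨x, hx, hxp⟩ := (mem_filter.1 hp).2
          rw [Function.update_self] at hxp
          rw [mem_image]
          refine ⟨x, mem_univ _, ?_⟩
          rw [← hxp]
          rcases x with i | s
          · have : i ≠ j := fun h => hx (by rw [h])
            show T i = Function.update T j p i
            exact (Function.update_of_ne this _ _).symm
          · rfl
        have h6 := (card_le_card h5).trans card_image_le
        rw [card_univ, Fintype.card_sum] at h6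
        exact_mod_cast h6
      have h5 : ((𝒞 j).card : ℝ) * ∑ T ∈ Fintype.piFinset 𝒞,
          (if ∃ x, x ≠ Sum.inl j ∧ Sum.elim T Q x = T j then (1 : ℝ) else 0) ≤
          (𝒞 j).card * (η * (Fintype.piFinset 𝒞).card) := by
        rw [h3]
        refine (sum_le_sum h4).trans (le_of_eq ?_)
        rw [sum_const, nsmul_eq_mul]
        ring
      exact le_of_mul_le_mul_left h5 hpos
  have h3 := sum_le_sum h1
  rw [sum_sub_distrib, sum_comm] at h3
  have h4 := sum_le_sum h2
  rw [sum_const, nsmul_eq_mul] at h4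
  rw [sum_const, nsmul_one] at h3
  show _ ≤ ∑ T ∈ Fintype.piFinset 𝒞, (if ok Q T then (1 : ℝ) else 0)
  linarith


end okge

section table

variable {k : Type} [Field k] [Fintype k] [DecidableEq k] {τ : Type} [Fintype τ]
variable {ι : Type} [Fintype ι] [LinearOrder ι]

/-- the parities -/
noncomputable def parT (lg : Finset ι) (T₀ : ι → k[X]) (i : {i // i ∈ lg}) : ZMod 2 :=
  (((T₀ i.1).natDegree : ℕ) : ZMod 2)

/-- the block of a table -/
noncomputable def B0 (Q : τ → k[X]) (lg : Finset ι) (T₀ : ι → k[X])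
    (t : ({i // i ∈ lg} → τ → ZMod 2) × ({i // i ∈ lg} → {i // i ∉ lg} → ZMod 2)) :
    Bk (Option τ) {i // i ∉ lg} {i // i ∈ lg} where
  A u u' := L (T₀ u.1) (T₀ u'.1)
  B u i := t.2 i u
  C i u := t.2 i u
  hU u := lb Q (T₀ u.1)
  hJ i := fun o => o.elim (parT lg T₀ i) fun s => t.1 i s

theorem blk_eq (hm : IsSquare (-1 : k)) (Q : τ → k[X]) (lg : Finset ι) (T₀ T : ι → k[X])
    (h1 : ∀ i, i ∉ lg → T i = T₀ i) (h2 : ∀ i, (T i).natDegree = (T₀ i).natDegree) :
    blk Q lg T = B0 Q lg T₀ ((tab Q lg T).1, (tab Q lg T).2.1) := by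
  unfold blk B0 tab
  congr 1
  · funext u u'
    rw [h1 u.1 u.2, h1 u'.1 u'.2]
  · funext u i
    exact L_comm hm _ _
  · funext u
    rw [h1 u.1 u.2]
  · funext i o
    cases o with
    | none =>
      show (((T i.1).natDegree : ℕ) : ZMod 2) = (((T₀ i.1).natDegree : ℕ) : ZMod 2)
      rw [h2]
    | some s => rfl

theorem reg_B0 (hm : IsSquare (-1 : k)) (Q : τ → k[X]) (lg : Finset ι) (T₀ : ι → k[X])
    (t₀ : Option τ) (A R : ℕ)
    (t : ({i // i ∈ lg} → τ → ZMod 2) × ({i // i ∈ lg} → {i // i ∉ lg} → ZMod 2))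
    (ht : RegT A R (parT lg T₀) t) : Reg (B0 Q lg T₀ t) t₀ A R := by
  have hz : ∀ (φ : Option τ → ZMod 2), ze φ t₀ = 0 := fun _ => rfl
  refine ⟨fun u u' _ => ?_, fun u i => ?_, fun μ hμ => ?_, fun φ => ?_⟩
  · rw [hz, zero_mul, add_zero]
    exact L_comm hm _ _
  · rw [hz, zero_mul, add_zero]
    rfl
  · refine (ht.1 μ hμ).trans (le_of_eq ?_)
    congr 1
    ext i
    simp only [mem_filter, mem_univ, true_and]
    refine and_congr ?_ Iff.rfl
    constructor
    · rintro ⟨h1, h2⟩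
      funext o
      cases o with
      | none => exact h1
      | some s => exact h2 s
    · intro h
      exact ⟨congrFun h none, fun q => congrFun h (some q)⟩
  · refine (ht.2 (φ none) (fun s => φ (some s))).trans (le_of_eq ?_)
    congr 1
    ext i
    simp only [mem_filter, mem_univ, true_and]
    constructor
    · rintro ⟨h1, h2⟩
      funext o
      cases o with
      | none => exact h1
      | some s => exact congrFun h2 s
    · intro h
      exact ⟨congrFun h none, funext fun q => congrFun h (some q)⟩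

end table

/-- counting the exceptional tables -/
theorem count_bad {T1 T2 : Type} [Finite T1] [Finite T2] (M : ℝ) (hM : (Nat.card T2 : ℝ) = M)
    (G : T1 → Prop) (H : T1 → T2 → Prop) {δ : ℝ} (hδ : 0 ≤ δ)
    (h1 : (Nat.card {t : T1 // ¬ G t} : ℝ) ≤ δ / 4 * Nat.card T1)
    (h2 : ∀ t, G t → (Nat.card {α : T2 // H t α} : ℝ) ≤ δ / 2 * M) :
    (Nat.card {p : T1 × T2 // H p.1 p.2} : ℝ) ≤ 3 * δ / 4 * (Nat.card T1 * M) := by
  have : Fintype T1 := Fintype.ofFinite T1
  have e : {p : T1 × T2 // H p.1 p.2} ≃ Σ t : T1, {α : T2 // H t α} :=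
    { toFun := fun p => ⟨p.1.1, ⟨p.1.2, p.2⟩⟩
      invFun := fun x => ⟨(x.1, x.2.1), x.2.2⟩
      left_inv := fun p => rfl
      right_inv := fun x => rfl }
  have hM0 : 0 ≤ M := by
    rw [← hM]
    exact Nat.cast_nonneg _
  rw [Nat.card_congr e, Nat.card_sigma]
  push_cast
  have h3 : ∀ t : T1, (Nat.card {α : T2 // H t α} : ℝ) ≤ δ / 2 * M + (if ¬ G t then M else 0) := by
    intro t
    by_cases ht : G t
    · rw [if_neg (not_not.2 ht), add_zero]
      exact h2 t ht
    · rw [if_pos ht]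
      have h4 : (Nat.card {α : T2 // H t α} : ℝ) ≤ Nat.card T2 := by
        exact_mod_cast Nat.card_le_card_of_injective (fun a : {α : T2 // H t α} => a.1)
          Subtype.val_injective
      have h5 : 0 ≤ δ / 2 * M := by positivity
      linarith
  refine (sum_le_sum fun t _ => h3 t).trans ?_
  rw [sum_add_distrib, sum_const, nsmul_eq_mul, ← sum_filter, sum_const, nsmul_eq_mul, card_univ]
  have h6 : (((univ : Finset T1).filter fun t => ¬ G t).card : ℝ) = Nat.card {t : T1 // ¬ G t} := by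
    rw [Nat.card_eq_fintype_card, Fintype.card_subtype]
  rw [h6, ← Nat.card_eq_fintype_card]
  have h7 := mul_le_mul_of_nonneg_right h1 hM0
  nlinarith [h7]

theorem t_CEL (hTAB : S_TAB) (hREG : S_REG) : S_CEL := by
  intro τ _ t₀ Bad A R δ hδ hBad
  obtain ⟨R', C₀, hR', hC₀, hreg⟩ := hREG τ A R (δ / 4) (by positivity)
  have h8 : 0 < 8 / δ := by positivity
  refine ⟨R', C₀ + 8 / δ + 2, hR', by linarith, ?_⟩
  intro k _ _ _ Q ι _ _ 𝒞 lg Nd η s hc hs1 hs hpar hC hη
  by_cases hex : ∃ T₀ ∈ Fintype.piFinset 𝒞, ok Q T₀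
  swap
  · push Not at hex
    have h1 : ((Fintype.piFinset 𝒞).filter fun T => ok Q T ∧ Bad _ _ (blk Q lg T) (alp lg T)) = ∅ :=
      filter_eq_empty_iff.2 fun T hT h => hex T hT h.1
    rw [h1, card_empty, Nat.cast_zero]
    positivity
  obtain ⟨T₀, hT₀, hok₀⟩ := hex
  have hη0 := hc.eta0
  have hpow : (0 : ℝ) ≤ (1 / 2 : ℝ) ^ s := by positivity
  have hsame : ∀ T ∈ Fintype.piFinset 𝒞, (∀ i, i ∉ lg → T i = T₀ i) ∧
      ∀ i, (T i).natDegree = (T₀ i).natDegree := by
    intro T hT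
    refine ⟨fun i hi => ?_, fun i => ?_⟩
    · obtain ⟨p, hp⟩ := hc.sg i hi
      have h5 := Fintype.mem_piFinset.1 hT i
      have h6 := Fintype.mem_piFinset.1 hT₀ i
      rw [hp, mem_singleton] at h5 h6
      rw [h5, h6]
    · exact hc.dg i _ (Fintype.mem_piFinset.1 hT i) _ (Fintype.mem_piFinset.1 hT₀ i)
  -- the exponents
  obtain ⟨Y, hY⟩ : ∃ Y : ℝ, Y = 2 ^ ((Fintype.card ι + Fintype.card τ) ^ 2) := ⟨_, rfl⟩
  rw [← hY] at hη
  have hY1 : 1 ≤ Y := by
    rw [hY]
    exact one_le_pow₀ (by norm_num)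
  have hlgι : lg.card ≤ Fintype.card ι := card_le_univ _
  have hcardJ : Fintype.card {i // i ∈ lg} = lg.card := Fintype.card_coe lg
  have hcardU : Fintype.card {i // i ∉ lg} = Fintype.card ι - lg.card := by
    rw [Fintype.card_subtype_compl, Fintype.card_coe]
  -- all tuples and the good tuples
  obtain ⟨X, hX⟩ : ∃ X : ℝ, X = (((Fintype.piFinset 𝒞).filter fun T => ok Q T).card : ℝ) := ⟨_, rfl⟩
  have hX0 : 0 ≤ X := by rw [hX]; exact Nat.cast_nonneg _
  have hXs : ∑ T ∈ Fintype.piFinset 𝒞, (if ok Q T then (1 : ℝ) else 0) = X := by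
    rw [hX, ← sum_filter, sum_const, nsmul_one]
  have hPX : ((Fintype.piFinset 𝒞).card : ℝ) ≤ 2 * X := by
    have h3 := ok_ge (Q := Q) (𝒞 := 𝒞) (lg := lg) (η := η) hc.eta' (by
      intro T hT x y hx hy hxy
      apply hok₀
      have key : ∀ x : ι ⊕ τ, (∀ j ∈ lg, x ≠ Sum.inl j) →
          Sum.elim T Q x = Sum.elim T₀ Q x := by
        rintro (i | s) hx
        · have hi : i ∉ lg := fun h => hx i h rfl
          exact (hsame T hT).1 i hi
        · rfl
      rw [← key x hx, ← key y hy, hxy])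
    rw [hXs] at h3
    have h4 : (lg.card : ℝ) * η ≤ 1 / 2 := by
      have h5 : (lg.card : ℝ) ≤ Y := by
        rw [hY]
        have h6 : lg.card ≤ 2 ^ ((Fintype.card ι + Fintype.card τ) ^ 2) := by
          refine hlgι.trans ((Nat.lt_two_pow_self).le.trans (Nat.pow_le_pow_right (by norm_num) ?_))
          nlinarith [Nat.zero_le (Fintype.card τ), Nat.zero_le (Fintype.card ι)]
        exact_mod_cast h6
      have h6 : η * (2 * Y) ≤ η * ((C₀ + 8 / δ + 2) * Y) := by
        apply mul_le_mul_of_nonneg_left _ hη0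
        nlinarith
      have h7 := mul_le_mul_of_nonneg_left h5 hη0
      nlinarith
    have h5 : (0 : ℝ) ≤ ((Fintype.piFinset 𝒞).card : ℝ) := Nat.cast_nonneg _
    nlinarith
  -- the exceptional tables
  have htab := hTAB k τ Q ι 𝒞 lg Nd η hc fun t => Bad _ _ (B0 Q lg T₀ (t.1, t.2.1)) t.2.2
  have hfil : ((Fintype.piFinset 𝒞).filter fun T => ok Q T ∧ Bad _ _ (blk Q lg T) (alp lg T)) =
      ((Fintype.piFinset 𝒞).filter fun T => ok Q T ∧
        Bad _ _ (B0 Q lg T₀ ((tab Q lg T).1, (tab Q lg T).2.1)) (tab Q lg T).2.2) := by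
    refine filter_congr fun T hT => ?_
    rw [blk_eq hc.hm Q lg T₀ T (hsame T hT).1 (hsame T hT).2]
    rfl
  rw [hfil]
  refine htab.trans ?_
  rw [← hX]
  obtain ⟨M, hM⟩ : ∃ M : ℝ, M = 2 ^ (prs (univ : Finset {i // i ∈ lg})).card := ⟨_, rfl⟩
  have hM0 : 0 < M := by rw [hM]; positivity
  have hT2 : (Nat.card (prs (univ : Finset {i // i ∈ lg}) → ZMod 2) : ℝ) = M := by
    rw [Nat.card_eq_fintype_card, Fintype.card_fun, ZMod.card, Fintype.card_coe, hM]
    push_cast
    rfl
  have hcnt := count_bad (T1 := ({i // i ∈ lg} → τ → ZMod 2) × ({i // i ∈ lg} → {i // i ∉ lg} → ZMod 2))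
    (T2 := prs (univ : Finset {i // i ∈ lg}) → ZMod 2) M hT2 (RegT A R (parT lg T₀))
    (fun t α => Bad _ _ (B0 Q lg T₀ t) α) hδ.le
    (hreg {i // i ∉ lg} {i // i ∈ lg} s (parT lg T₀) hs1 (by rw [hcardU]; exact hs) (by
      intro b
      refine (hpar T₀ hT₀ b).trans (le_of_eq ?_)
      rw [← card_map (Function.Embedding.subtype fun i => i ∈ lg)]
      congr 1
      ext i
      constructor
      · intro hi
        obtain ⟨h1, h2⟩ := mem_filter.1 hi
        exact Finset.mem_map.2 ⟨⟨i, h1⟩, mem_filter.2 ⟨mem_univ _, h2⟩, rfl⟩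
      · intro hi
        obtain ⟨j, h1, h2⟩ := Finset.mem_map.1 hi
        have h3 := (mem_filter.1 h1).2
        rw [← h2]
        exact mem_filter.2 ⟨j.2, h3⟩) (by nlinarith))
    (fun t ht => by
      rw [hM]
      exact hBad _ _ _ (reg_B0 hc.hm Q lg T₀ t₀ A R t ht))
  obtain ⟨N1, hN1⟩ : ∃ N1 : ℝ, N1 =
    (Nat.card (({i // i ∈ lg} → τ → ZMod 2) × ({i // i ∈ lg} → {i // i ∉ lg} → ZMod 2)) : ℝ) := ⟨_, rfl⟩
  have e2 : TB τ lg ≃ (({i // i ∈ lg} → τ → ZMod 2) × ({i // i ∈ lg} → {i // i ∉ lg} → ZMod 2)) ×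
      (prs (univ : Finset {i // i ∈ lg}) → ZMod 2) := (Equiv.prodAssoc _ _ _).symm
  have hTB : (Nat.card (TB τ lg) : ℝ) = N1 * M := by
    rw [Nat.card_congr e2, Nat.card_prod]
    push_cast
    rw [hT2, ← hN1]
  have e3 : {t : TB τ lg // Bad _ _ (B0 Q lg T₀ (t.1, t.2.1)) t.2.2} ≃
      {p : (({i // i ∈ lg} → τ → ZMod 2) × ({i // i ∈ lg} → {i // i ∉ lg} → ZMod 2)) ×
      (prs (univ : Finset {i // i ∈ lg}) → ZMod 2) // Bad _ _ (B0 Q lg T₀ p.1) p.2} :=
    { toFun := fun t => ⟨((t.1.1, t.1.2.1), t.1.2.2), t.2⟩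
      invFun := fun p => ⟨(p.1.1.1, p.1.1.2, p.1.2), p.2⟩
      left_inv := fun t => rfl
      right_inv := fun p => rfl }
  rw [← hN1] at hcnt
  have hN1p : 0 < N1 := by
    rw [hN1]
    exact_mod_cast Nat.card_pos
  have hN1le : N1 * M ≤ Y := by
    rw [hN1, hM, hY, Nat.card_eq_fintype_card, Fintype.card_prod, Fintype.card_fun, Fintype.card_fun,
      Fintype.card_fun, Fintype.card_fun, ZMod.card, hcardJ, hcardU]
    push_cast
    rw [← pow_mul, ← pow_mul, ← pow_add, ← pow_add]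
    refine pow_le_pow_right₀ (by norm_num) ?_
    have h1 : (prs (univ : Finset {i // i ∈ lg})).card ≤ lg.card * lg.card := by
      refine (card_le_univ _).trans (le_of_eq ?_)
      rw [Fintype.card_prod, hcardJ]
    have h2 : Fintype.card ι - lg.card + lg.card = Fintype.card ι := Nat.sub_add_cancel hlgι
    have h3 : Fintype.card τ * lg.card + (Fintype.card ι - lg.card) * lg.card + lg.card * lg.card =
        (Fintype.card τ + Fintype.card ι) * lg.card := by
      rw [← add_mul, ← add_mul, add_assoc, h2]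
    nlinarith [h1, h3, hlgι]
  have hratio : (Nat.card {t : TB τ lg // Bad _ _ (B0 Q lg T₀ (t.1, t.2.1)) t.2.2} : ℝ) /
      Nat.card (TB τ lg) ≤ 3 * δ / 4 := by
    rw [hTB, Nat.card_congr e3, div_le_iff₀ (mul_pos hN1p hM0)]
    exact hcnt
  have hlast : η * Nat.card (TB τ lg) * ((Fintype.piFinset 𝒞).card : ℝ) ≤ δ / 4 * X := by
    rw [hTB]
    have h1 : η * (N1 * M) ≤ δ / 8 := by
      have h2 : η * (8 / δ * Y) ≤ 1 := by
        refine le_trans (mul_le_mul_of_nonneg_left ?_ hη0) hη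
        nlinarith
      have h3 : η * Y ≤ δ / 8 := by
        have h4 : η * (8 / δ * Y) = (η * Y) / (δ / 8) := by
          field_simp
        rw [h4, div_le_one (by positivity)] at h2
        exact h2
      exact (mul_le_mul_of_nonneg_left hN1le hη0).trans h3
    calc η * (N1 * M) * ((Fintype.piFinset 𝒞).card : ℝ) ≤ δ / 8 * (2 * X) :=
          mul_le_mul h1 hPX (Nat.cast_nonneg _) (by positivity)
      _ = δ / 4 * X := by ring
  have h9 := mul_le_mul_of_nonneg_right hratio hX0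
  linarith

end Pool.Agent.Q192.DX
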